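import Pool.Agent.R896.PosPart

set_option autoImplicit false

/-!
# The effective cone of the blow-up of `ℙⁿ` at `n + 4` points has a positive part for `n ≥ 6`

Let `X` be the blow-up of complex projective `n`-space at `n + 4` general points, `n ≥ 6`. There is an
effective divisor `D = d H - ∑ mᵢ Eᵢ` with `(n + 1) d < ∑ mᵢ`, that is `D · F < 0`. One may take
`d = 150` and the multiplicities `106` (seven times), `103` (three times) and `150` (`n - 6` times),
so that `D · F = -1`.

The proof. For `n = 6` put seven of the points at the coordinate points, so that the forms of degree
`e` with all exponents less than `45` are considered; let `H e` be their number. A form of degree `150`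
killed by the `48`-th power of the derivative in the direction of a point vanishes there to the order
`103`. For a point without zero coordinates this power of the derivative maps the forms of degree `102`
onto those of degree `54` (representations of `sl₂`: the strong Lefschetz property of
`ℂ[x₁, …, x₇] / (xᵢ ^ 45)`). So the conditions at the three other points leave a space of dimension at
least `(H 150 - H 102) - 2 (H 102 - H 54) = 3213840 > 0`. By semicontinuity there is such a form for all
positions of the ten points, and for `n > 6` one takes a cone.
-/

namespace Pool.Agent.Results.MP_71de02_ag.PositivePart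

/-- For all `n ≥ 6` there are multiplicities `m i`, `i = 1, …, n + 4`, with `∑ i, m i = 150 (n + 1) + 1`
such that for all points `p i` of projective `n`-space, given by homogeneous coordinates, there is a
nonzero form of degree `150` which vanishes at `p i` to order at least `m i` for all `i` (it lies in
the `m i`-th power of the maximal ideal of the polynomials vanishing at `p i`). -/
theorem result (n : ℕ) (hn : 6 ≤ n) :
    ∃ m : Fin (n + 4) → ℕ, ∑ i, m i = (n + 1) * 150 + 1 ∧
      ∀ p : Fin (n + 4) → Fin (n + 1) → ℂ, ∃ f : MvPolynomial (Fin (n + 1)) ℂ,
        f ≠ 0 ∧ f.IsHomogeneous 150 ∧
          ∀ i, f ∈ (RingHom.ker (MvPolynomial.eval (p i))) ^ m i :=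
  ⟨Pool.Agent.R896.mul4 n, Pool.Agent.R896.sum_mul4 hn, fun p => Pool.Agent.R896.main hn p⟩

end Pool.Agent.Results.MP_71de02_ag.PositivePart
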